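import Pool.Agent.Helper9.CC.Stm
import Pool.Agent.Helper9.FJ.Poly

/-!
# SYM: symmetric powers of vector bundles
-/

set_option autoImplicit false

namespace Pool.Agent.Helper72.CC

open FF Module MvPolynomial Pool.Agent.Helper9.FJ Pool.Agent.Helper9.PP Pool.Agent.Helper9.CC

section alg

variable {K : Type} [Field K] {r : ℕ}

/-- The substitution given by a matrix. -/
noncomputable def phi (A : Matrix (Fin r) (Fin r) K) :
    MvPolynomial (Fin r) K →ₐ[K] MvPolynomial (Fin r) K :=
  aeval fun i => ∑ j, C (A i j) * X j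

theorem phi_X (A : Matrix (Fin r) (Fin r) K) (i : Fin r) :
    phi A (X i) = ∑ j, C (A i j) * X j := aeval_X _ _

theorem phi_phi (A B : Matrix (Fin r) (Fin r) K) (s : MvPolynomial (Fin r) K) :
    phi B (phi A s) = phi (A * B) s := by
  have h : (phi B).comp (phi A) = phi (A * B) := by
    refine algHom_ext fun i => ?_
    rw [AlgHom.comp_apply, phi_X, phi_X, map_sum]
    have h1 : ∀ j, phi B (C (A i j) * X j) = ∑ k, C (A i j * B j k) * X k := by
      intro j
      rw [map_mul, phi_X, Finset.mul_sum]
      refine Finset.sum_congr rfl fun k _ => ?_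
      have h2 : phi B (C (A i j)) = C (A i j) := (phi B).commutes (A i j)
      rw [h2, C_mul, mul_assoc]
    rw [Finset.sum_congr rfl fun j _ => h1 j, Finset.sum_comm]
    refine Finset.sum_congr rfl fun k _ => ?_
    rw [← Finset.sum_mul, Matrix.mul_apply, map_sum]
  exact congrArg (fun f => f s) h

theorem phi_one (s : MvPolynomial (Fin r) K) : phi (1 : Matrix (Fin r) (Fin r) K) s = s := by
  have h : phi (1 : Matrix (Fin r) (Fin r) K) = AlgHom.id K _ := by
    refine algHom_ext fun i => ?_
    rw [phi_X, Finset.sum_eq_single i]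
    · rw [Matrix.one_apply_eq, C_1, one_mul]
      rfl
    · intro j _ hj
      rw [Matrix.one_apply_ne (Ne.symm hj), C_0, zero_mul]
    · intro h
      exact absurd (Finset.mem_univ i) h
  rw [h]
  rfl

theorem phi_hom (A : Matrix (Fin r) (Fin r) K) {s : MvPolynomial (Fin r) K} {q : ℕ}
    (h : s.IsHomogeneous q) : (phi A s).IsHomogeneous q := by
  have h1 := h.aeval (fun i => ∑ j, C (A i j) * X j : Fin r → MvPolynomial (Fin r) K)
    (n := 1) fun i => by
      refine IsHomogeneous.sum _ _ _ fun j _ => ?_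
      have := (isHomogeneous_C (Fin r) (A i j)).mul (isHomogeneous_X K j)
      rwa [zero_add] at this
  rw [one_mul] at h1
  exact h1

/-- The monomials of degree `q`. -/
abbrev I (r q : ℕ) : Type := {α // α ∈ Finset.finsuppAntidiag (Finset.univ : Finset (Fin r)) q}

theorem mem_I {q : ℕ} {α : Fin r →₀ ℕ} :
    α ∈ Finset.finsuppAntidiag (Finset.univ : Finset (Fin r)) q ↔ ∑ i, α i = q := by
  rw [Finset.mem_finsuppAntidiag]
  exact ⟨fun h => h.1, fun h => ⟨h, Finset.subset_univ _⟩⟩

theorem hom_iff {q : ℕ} {s : MvPolynomial (Fin r) K} (h : s.IsHomogeneous q) {α : Fin r →₀ ℕ}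
    (hα : coeff α s ≠ 0) : α ∈ Finset.finsuppAntidiag (Finset.univ : Finset (Fin r)) q := by
  rw [mem_I]
  have h1 := h hα
  rw [Finsupp.weight_apply, Finsupp.sum_fintype _ _ (fun i => by simp)] at h1
  rw [← h1]
  refine Finset.sum_congr rfl fun i _ => ?_
  simp

theorem mono_hom {q : ℕ} (α : I r q) : (monomial α.1 (1 : K)).IsHomogeneous q := by
  refine isHomogeneous_monomial _ ?_
  rw [Finsupp.degree_eq_sum]
  exact mem_I.mp α.2

theorem eq_sum {q : ℕ} {s : MvPolynomial (Fin r) K} (h : s.IsHomogeneous q) :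
    s = ∑ α : I r q, C (coeff α.1 s) * monomial α.1 1 := by
  ext β
  rw [coeff_sum]
  simp only [coeff_C_mul, coeff_monomial]
  by_cases hβ : β ∈ Finset.finsuppAntidiag (Finset.univ : Finset (Fin r)) q
  · rw [Finset.sum_eq_single ⟨β, hβ⟩]
    · rw [if_pos rfl, mul_one]
    · intro α _ hα
      rw [if_neg (fun h => hα (Subtype.ext h)), mul_zero]
    · intro h
      exact absurd (Finset.mem_univ _) h
  · have h1 : coeff β s = 0 := by
      by_contra hne
      exact hβ (hom_iff h hne)
    rw [h1]
    refine (Finset.sum_eq_zero fun α _ => ?_).symm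
    rw [if_neg (fun h : α.1 = β => hβ (h ▸ α.2)), mul_zero]

/-- The symmetric power of a matrix. -/
noncomputable def Sy (q : ℕ) (A : Matrix (Fin r) (Fin r) K) : Matrix (I r q) (I r q) K :=
  fun α β => coeff β.1 (phi A (monomial α.1 1))

theorem coeff_phi {q : ℕ} (A : Matrix (Fin r) (Fin r) K) {s : MvPolynomial (Fin r) K}
    (h : s.IsHomogeneous q) (β : I r q) :
    coeff β.1 (phi A s) = ∑ α : I r q, coeff α.1 s * Sy q A α β := by
  conv_lhs => rw [eq_sum h, map_sum, coeff_sum]
  refine Finset.sum_congr rfl fun α _ => ?_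
  rw [map_mul]
  have h2 : phi A (C (coeff α.1 s)) = C (coeff α.1 s) := (phi A).commutes _
  rw [h2, coeff_C_mul]
  rfl

theorem Sy_mul {q : ℕ} (A B : Matrix (Fin r) (Fin r) K) : Sy q (A * B) = Sy q A * Sy q B := by
  ext α γ
  rw [Matrix.mul_apply]
  unfold Sy
  rw [← phi_phi]
  exact coeff_phi B (phi_hom A (mono_hom α)) γ

theorem Sy_one {q : ℕ} : Sy q (1 : Matrix (Fin r) (Fin r) K) = 1 := by
  ext α β
  unfold Sy
  rw [phi_one, coeff_monomial, Matrix.one_apply]
  by_cases h : α = β
  · rw [if_pos h, if_pos (congrArg Subtype.val h)]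
  · rw [if_neg h, if_neg fun h' => h (Subtype.ext h')]

/-- The number of times the variable `i` occurs in the monomials of degree `q`. -/
def cn (r q : ℕ) (i : Fin r) : ℕ := ∑ α : I r q, α.1 i

theorem cn_eq {q : ℕ} (i j : Fin r) : cn r q i = cn r q j := by
  unfold cn
  have hm : ∀ α : I r q, α.1.equivMapDomain (Equiv.swap i j) ∈
      Finset.finsuppAntidiag (Finset.univ : Finset (Fin r)) q := by
    intro α
    rw [mem_I]
    simp only [Finsupp.equivMapDomain_apply, Equiv.symm_swap]
    rw [Equiv.sum_comp (Equiv.swap i j) (fun k => α.1 k)]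
    exact mem_I.mp α.2
  let e : I r q → I r q := fun α => ⟨α.1.equivMapDomain (Equiv.swap i j), hm α⟩
  have he : Function.Involutive e := by
    intro α
    apply Subtype.ext
    ext k
    change (((α.1.equivMapDomain (Equiv.swap i j)).equivMapDomain (Equiv.swap i j)) k) = α.1 k
    simp only [Finsupp.equivMapDomain_apply, Equiv.symm_swap, Equiv.swap_apply_self]
  rw [← Equiv.sum_comp he.toPerm]
  refine Finset.sum_congr rfl fun α _ => ?_
  change (α.1.equivMapDomain (Equiv.swap i j)) i = α.1 j
  rw [Finsupp.equivMapDomain_apply, Equiv.symm_swap, Equiv.swap_apply_left]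

theorem sum_cn {q : ℕ} : ∑ i, cn r q i = Fintype.card (I r q) * q := by
  unfold cn
  rw [Finset.sum_comm]
  have h : ∀ α : I r q, ∑ i, α.1 i = q := fun α => mem_I.mp α.2
  rw [Finset.sum_congr rfl fun α _ => h α, Finset.sum_const, Finset.card_univ, smul_eq_mul]

theorem Sy_diag {q : ℕ} (d : Fin r → K) :
    Sy q (Matrix.diagonal d) = Matrix.diagonal fun α : I r q => ∏ i, d i ^ α.1 i := by
  ext α β
  have h1 : phi (Matrix.diagonal d) (monomial α.1 (1 : K)) =
      C (∏ i, d i ^ α.1 i) * monomial α.1 1 := by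
    have h2 : ∀ i, phi (Matrix.diagonal d) (X i) = C (d i) * X i := by
      intro i
      rw [phi_X, Finset.sum_eq_single i]
      · rw [Matrix.diagonal_apply_eq]
      · intro j _ hj
        rw [Matrix.diagonal_apply_ne _ (Ne.symm hj), C_0, zero_mul]
      · intro h
        exact absurd (Finset.mem_univ i) h
    rw [monomial_eq, C_1, one_mul, Finsupp.prod_fintype _ _ (fun i => pow_zero _), map_prod,
      map_prod, ← Finset.prod_mul_distrib]
    refine Finset.prod_congr rfl fun i _ => ?_
    rw [map_pow, h2, mul_pow, C_pow]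
  unfold Sy
  rw [h1, coeff_C_mul, coeff_monomial, Matrix.diagonal_apply]
  by_cases h : α = β
  · rw [if_pos h, if_pos (congrArg Subtype.val h), mul_one]
  · rw [if_neg h, if_neg fun h' => h (Subtype.ext h'), mul_zero]

theorem det_diag {q : ℕ} (d : Fin r → K) (i0 : Fin r) :
    (Sy q (Matrix.diagonal d)).det = (Matrix.diagonal d).det ^ cn r q i0 := by
  rw [Sy_diag, Matrix.det_diagonal, Matrix.det_diagonal, Finset.prod_comm, ← Finset.prod_pow]
  refine Finset.prod_congr rfl fun i _ => ?_
  rw [Finset.prod_pow_eq_pow_sum, cn_eq i0 i]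
  rfl

theorem det_transv [CharZero K] {q : ℕ} (i j : Fin r) (hij : i ≠ j) (c : K) :
    (Sy q (Matrix.transvection i j c)).det = 1 := by
  obtain ⟨d, hd⟩ : ∃ d : Fin r → K, d = fun k => if k = i then 2 else 1 := ⟨_, rfl⟩
  have hne : (Sy q (Matrix.transvection i j c)).det ≠ 0 := by
    intro h
    have h1 : Sy q (Matrix.transvection i j c) * Sy q (Matrix.transvection i j (-c)) = 1 := by
      rw [← Sy_mul, Matrix.transvection_mul_transvection_same _ _ hij, add_neg_cancel,
        Matrix.transvection_zero, Sy_one]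
    have h2 := congrArg Matrix.det h1
    rw [Matrix.det_mul, h, zero_mul, Matrix.det_one] at h2
    exact zero_ne_one h2
  have hD : (Sy q (Matrix.diagonal d)).det ≠ 0 := by
    rw [det_diag d i, Matrix.det_diagonal]
    refine pow_ne_zero _ (Finset.prod_ne_zero_iff.mpr fun k _ => ?_)
    rw [hd]
    change (if k = i then (2 : K) else 1) ≠ 0
    split_ifs
    · exact two_ne_zero
    · exact one_ne_zero
  have h1 : Matrix.diagonal d * Matrix.transvection i j c =
      Matrix.transvection i j c * Matrix.transvection i j c * Matrix.diagonal d := by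
    rw [Matrix.transvection_mul_transvection_same _ _ hij]
    ext a b
    rw [Matrix.diagonal_mul, Matrix.mul_diagonal]
    unfold Matrix.transvection
    rw [Matrix.add_apply, Matrix.add_apply, Matrix.single_apply, Matrix.single_apply,
      Matrix.one_apply, hd]
    change (if a = i then (2 : K) else 1) * _ = _ * (if b = i then (2 : K) else 1)
    by_cases ha : a = i
    · by_cases hb : b = i
      · have h3 : ¬ (i = a ∧ j = b) := fun h => hij (h.2.trans hb).symm
        rw [if_pos ha, if_pos hb, if_neg h3, if_neg h3]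
        ring
      · have h3 : a ≠ b := fun h => hb (h.symm.trans ha)
        rw [if_pos ha, if_neg hb, if_neg h3]
        split_ifs <;> ring
    · have h3 : ¬ (i = a ∧ j = b) := fun h => ha h.1.symm
      rw [if_neg ha, if_neg h3, if_neg h3]
      by_cases hb : b = i
      · have h4 : a ≠ b := fun h => ha (h.trans hb)
        rw [if_neg h4]
        ring
      · rw [if_neg hb]
        ring
  have h2 := congrArg (fun A => (Sy q A).det) h1
  simp only [Sy_mul, Matrix.det_mul] at h2
  rw [mul_comm] at h2
  have h3 := mul_right_cancel₀ hD h2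
  exact (mul_left_cancel₀ hne (by rw [mul_one]; exact h3)).symm

theorem det_Sy [CharZero K] {q : ℕ} (i0 : Fin r) (A : Matrix (Fin r) (Fin r) K) (hA : A.det ≠ 0) :
    (Sy q A).det = A.det ^ cn r q i0 := by
  refine Matrix.diagonal_transvection_induction_of_det_ne_zero
    (fun A => (Sy q A).det = A.det ^ cn r q i0) A hA (fun d _ => det_diag d i0) (fun t => ?_)
    (fun A B _ _ h1 h2 => ?_)
  · rw [Matrix.TransvectionStruct.det, one_pow]
    exact det_transv t.i t.j t.hij t.c
  · rw [Sy_mul, Matrix.det_mul, Matrix.det_mul, h1, h2, mul_pow]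

end alg

theorem sym : S_SYM := by
  intro K _ _ _ r E q N hr
  classical
  have hchar : CharZero K := charZero_of_injective_algebraMap (algebraMap ℂ K).injective
  obtain ⟨i0⟩ : Nonempty (Fin r) := ⟨⟨0, hr⟩⟩
  obtain ⟨n, hn⟩ : ∃ n, n = Fintype.card (I r q) := ⟨_, rfl⟩
  let e : I r q ≃ Fin n := (Fintype.equivFin (I r q)).trans (finCongr hn.symm)
  have hc : ∀ P : Place ℂ K, ∃ c : K, c ≠ 0 ∧ P.ord c = -N P ∧ (N P = 0 → c = 1) := by
    intro P
    by_cases h : N P = 0
    · exact ⟨1, one_ne_zero, by rw [P.ord_one, h, neg_zero], fun _ => rfl⟩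
    · obtain ⟨t, ht, ht1⟩ := P.surj
      exact ⟨t ^ (-N P), zpow_ne_zero _ ht, by rw [P.ord_zpow, ht1, mul_one], fun h' => absurd h' h⟩
  choose c hc0 hcN hc1 using hc
  have hdet : ∀ P, (Matrix.det (c P • (Sy q (E.B P)).submatrix e.symm e.symm)) =
      c P ^ n * (E.B P).det ^ cn r q i0 := by
    intro P
    rw [Matrix.det_smul, Fintype.card_fin, Matrix.det_submatrix_equiv_self,
      det_Sy i0 _ (E.det_ne P)]
  let F : Bundle K n :=
    { B := fun P => c P • (Sy q (E.B P)).submatrix e.symm e.symm
      det_ne := fun P => by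
        rw [hdet]
        exact mul_ne_zero (pow_ne_zero _ (hc0 P)) (pow_ne_zero _ (E.det_ne P))
      fin := by
        refine (E.fin.union (N.hasFiniteSupport)).subset fun P hP => ?_
        by_contra h
        apply hP
        have h1 : E.B P = 1 := by
          by_contra h2
          exact h (Or.inl h2)
        have h2 : N P = 0 := by
          by_contra h2
          exact h (Or.inr h2)
        rw [hc1 P h2, one_smul, h1, Sy_one, Matrix.submatrix_one_equiv] }
  refine ⟨n, F, ?_, ?_, ?_⟩
  · rw [hn]
    refine Fintype.card_pos_iff.mpr ⟨⟨Finsupp.single i0 q, ?_⟩⟩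
    rw [mem_I]
    simp [Finsupp.single_apply]
  · have h1 : F.detDiv = n • N + (cn r q i0) • E.detDiv := by
      ext P
      change -P.ord (F.B P).det = _
      rw [Finsupp.add_apply, Finsupp.smul_apply, Finsupp.smul_apply]
      change -P.ord (Matrix.det (c P • (Sy q (E.B P)).submatrix e.symm e.symm)) =
        n • N P + cn r q i0 • (-P.ord (E.B P).det)
      rw [hdet, P.ord_mul (pow_ne_zero _ (hc0 P)) (pow_ne_zero _ (E.det_ne P)), P.ord_pow,
        P.ord_pow, hcN, nsmul_eq_mul, nsmul_eq_mul]
      ring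
    have h2 : ∀ (m : ℕ) (D : Place ℂ K →₀ ℤ), ddeg (m • D) = m * ddeg D := by
      intro m D
      induction m with
      | zero => rw [zero_smul, ddeg_zero, Nat.cast_zero, zero_mul]
      | succ m ih => rw [succ_nsmul, ddeg_add, ih]; push_cast; ring
    rw [h1, ddeg_add, h2, h2]
    have h3 : (r : ℝ) * cn r q i0 = n * q := by
      have h4 := sum_cn (r := r) (q := q)
      rw [Finset.sum_congr rfl fun i _ => cn_eq i i0, Finset.sum_const, Finset.card_univ,
        Fintype.card_fin, smul_eq_mul, ← hn] at h4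
      exact_mod_cast h4
    have hr0 : (r : ℝ) ≠ 0 := by exact_mod_cast hr.ne'
    push_cast
    field_simp
    linear_combination (ddeg E.detDiv : ℝ) * h3
  · rintro N0 ⟨v, hv0, hv⟩
    obtain ⟨s, hs⟩ : ∃ s : MvPolynomial (Fin r) K, s = ∑ α : I r q, C (v (e α)) * monomial α.1 1 :=
      ⟨_, rfl⟩
    have hcoef : ∀ β : I r q, coeff β.1 s = v (e β) := by
      intro β
      rw [hs, coeff_sum, Finset.sum_eq_single β]
      · rw [coeff_C_mul, coeff_monomial, if_pos rfl, mul_one]
      · intro α _ hα
        rw [coeff_C_mul, coeff_monomial, if_neg (fun h => hα (Subtype.ext h)), mul_zero]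
      · intro h
        exact absurd (Finset.mem_univ _) h
    have hhom : s.IsHomogeneous q := by
      rw [hs]
      refine IsHomogeneous.sum _ _ _ fun α _ => ?_
      have := (isHomogeneous_C (Fin r) (v (e α))).mul (mono_hom (K := K) α)
      rwa [zero_add] at this
    refine ⟨s, ?_, hhom, ?_⟩
    · intro h
      apply hv0
      funext k
      have h1 := hcoef (e.symm k)
      rw [h, coeff_zero, Equiv.apply_symm_apply] at h1
      exact h1.symm
    · intro P α
      have hloc : loc E P s = phi (E.B P)⁻¹ s := rfl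
      rw [hloc]
      by_cases hα : α ∈ Finset.finsuppAntidiag (Finset.univ : Finset (Fin r)) q
      · have h1 := coeff_phi (E.B P)⁻¹ hhom ⟨α, hα⟩
        change coeff α (phi (E.B P)⁻¹ s) = _ at h1
        have hinv : (F.B P)⁻¹ = (c P)⁻¹ • (Sy q (E.B P)⁻¹).submatrix e.symm e.symm := by
          refine Matrix.inv_eq_right_inv ?_
          change (c P • (Sy q (E.B P)).submatrix e.symm e.symm) *
            ((c P)⁻¹ • (Sy q (E.B P)⁻¹).submatrix e.symm e.symm) = 1
          rw [Matrix.smul_mul, Matrix.mul_smul, smul_smul, mul_inv_cancel₀ (hc0 P), one_smul,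
            Matrix.submatrix_mul_equiv, ← Sy_mul, Matrix.mul_nonsing_inv _
              (isUnit_iff_ne_zero.2 (E.det_ne P)), Sy_one, Matrix.submatrix_one_equiv]
        have h2 : coeff α (phi (E.B P)⁻¹ s) =
            c P * Matrix.vecMul v (F.B P)⁻¹ (e ⟨α, hα⟩) := by
          rw [h1, hinv, Matrix.vecMul_smul, Pi.smul_apply, smul_eq_mul, ← mul_assoc,
            mul_inv_cancel₀ (hc0 P), one_mul]
          change _ = ∑ k, v k * (Sy q (E.B P)⁻¹) (e.symm k) (e.symm (e ⟨α, hα⟩))
          rw [Equiv.symm_apply_apply, ← Equiv.sum_comp e]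
          refine Finset.sum_congr rfl fun β _ => ?_
          rw [hcoef, Equiv.symm_apply_apply]
        rw [h2]
        have h3 := (ge_self (P := P) (c P)).mul (hv P (e ⟨α, hα⟩))
        rw [hcN] at h3
        refine h3.mono ?_
        rw [Finsupp.add_apply]
        linarith
      · have h1 : coeff α (phi (E.B P)⁻¹ s) = 0 := by
          by_contra hne
          exact hα (hom_iff (phi_hom _ hhom) hne)
        rw [h1]
        exact ge_zero

end Pool.Agent.Helper72.CC
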